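import Mathlib

/-!
# The Hasse principle for quadratic forms in `k`-th powers, `k` even

For every even `k ≥ 2` and every `s ≥ 8 k ^ 3 + 3` the nonsingular quadratic form
`Q(x) = (2 x₀ - x₁) ^ 2 + x₀ x₂ + x₂ ^ 2 + x₃ ^ 2 + ⋯` in `s` variables gives a form
`F(y) = Q(y₀ ^ k, y₁ ^ k, …)` with nontrivial zeros over `ℝ` and over all `ℚ_p`, but without a
nontrivial rational zero. So the Hasse principle (as defined in the problem, with arbitrary nontrivial
zeros) fails for arbitrarily large numbers of variables, and there is no threshold `h(k)`.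

Reason: for even `k` the `y_i ^ k` are nonnegative, so in a real zero `x₂ = x₃ = ⋯ = 0` and
`x₁ = 2 x₀`, and `2` is a `k`-th power in `ℝ`, but not in `ℚ`. Over `ℚ_p` the form
`y₂ ^ (2 k) + y₃ ^ (2 k) + ⋯` has a nontrivial zero.
-/

set_option autoImplicit false

namespace Pool.Agent.Results.MP_c0a553_nt.EvenExponents

open Finset Filter Asymptotics

/-- The value `F(y) = Q(y₁ ^ k, …, y_s ^ k)`, where `Q` is the quadratic form with the rational
matrix `A`, for `y` with entries in a field `K` containing `ℚ`. -/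
def value (K : Type) [Field K] [Algebra ℚ K] {s : ℕ} (A : Matrix (Fin s) (Fin s) ℚ) (k : ℕ)
    (y : Fin s → K) : K :=
  ∑ i, ∑ j, algebraMap ℚ K (A i j) * (y i ^ k * y j ^ k)

/-- The form `F(y) = Q(y₁ ^ k, …, y_s ^ k)` has a nontrivial zero over `K`. -/
def HasZero (K : Type) [Field K] [Algebra ℚ K] {s : ℕ} (A : Matrix (Fin s) (Fin s) ℚ) (k : ℕ) :
    Prop :=
  ∃ y : Fin s → K, y ≠ 0 ∧ value K A k y = 0

/-- The form `F(y) = Q(y₁ ^ k, …, y_s ^ k)` satisfies the Hasse principle. -/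
def Hasse {s : ℕ} (A : Matrix (Fin s) (Fin s) ℚ) (k : ℕ) : Prop :=
  HasZero ℝ A k → (∀ (p : ℕ) [Fact p.Prime], HasZero ℚ_[p] A k) → HasZero ℚ A k

/-- `s₀` is a threshold for `k`: for all `s ≥ s₀` and all nonsingular quadratic forms `Q` in `s`
variables the form `Q(y₁ ^ k, …, y_s ^ k)` satisfies the Hasse principle. `h(k)` is the least
threshold. -/
def IsThreshold (k s₀ : ℕ) : Prop :=
  ∀ s : ℕ, s₀ ≤ s → ∀ A : Matrix (Fin s) (Fin s) ℚ, A.IsSymm → A.det ≠ 0 → Hasse A k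

/-! ### The quadratic form -/

/-- the matrix of `(2 x₀ - x₁) ^ 2 + x₀ x₂ + x₂ ^ 2 + x₃ ^ 2 + ⋯` -/
def mat (n : ℕ) : Matrix (Fin (n + 3)) (Fin (n + 3)) ℚ := fun i j =>
  if i.1 = 0 then (if j.1 = 0 then 4 else if j.1 = 1 then -2 else if j.1 = 2 then 1 / 2 else 0)
  else if i.1 = 1 then (if j.1 = 0 then -2 else if j.1 = 1 then 1 else 0)
  else if i.1 = 2 then (if j.1 = 0 then 1 / 2 else if j.1 = 2 then 1 else 0)
  else (if j.1 = i.1 then 1 else 0)

theorem mat_symm (n : ℕ) : (mat n).IsSymm := by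
  ext i j
  simp only [Matrix.transpose_apply, mat]
  split_ifs <;> first | rfl | omega

theorem two_mod (n : ℕ) : 2 % (n + 3) = 2 := Nat.mod_eq_of_lt (by omega)

theorem row0 (n : ℕ) {K : Type} [Field K] [Algebra ℚ K] (x : Fin (n + 3) → K) :
    ∑ j, algebraMap ℚ K (mat n 0 j) * x j = 4 * x 0 - 2 * x 1 + 2⁻¹ * x 2 := by
  rw [Fin.sum_univ_succ, Fin.sum_univ_succ, Fin.sum_univ_succ]
  simp [mat, two_mod]
  ring

theorem row1 (n : ℕ) {K : Type} [Field K] [Algebra ℚ K] (x : Fin (n + 3) → K) :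
    ∑ j, algebraMap ℚ K (mat n 1 j) * x j = - 2 * x 0 + x 1 := by
  rw [Fin.sum_univ_succ, Fin.sum_univ_succ, Fin.sum_univ_succ]
  simp [mat, two_mod]

theorem row2 (n : ℕ) {K : Type} [Field K] [Algebra ℚ K] (x : Fin (n + 3) → K) :
    ∑ j, algebraMap ℚ K (mat n 2 j) * x j = 2⁻¹ * x 0 + x 2 := by
  rw [Fin.sum_univ_succ, Fin.sum_univ_succ, Fin.sum_univ_succ]
  simp [mat, two_mod]

theorem row3 (n : ℕ) {K : Type} [Field K] [Algebra ℚ K] (x : Fin (n + 3) → K) (i : Fin n) :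
    ∑ j, algebraMap ℚ K (mat n i.succ.succ.succ j) * x j = x i.succ.succ.succ := by
  rw [Fin.sum_univ_succ, Fin.sum_univ_succ, Fin.sum_univ_succ]
  have h2 : ¬ (2 = (i : ℕ) + 1 + 1 + 1) := by omega
  simp [mat, two_mod]
  rw [Finset.sum_eq_single i]
  · simp
  · intro b _ hb
    have : (b : ℕ) ≠ i := fun h => hb (Fin.ext h)
    simp [this]
  · simp

/-- the value of the form -/
theorem value_mat (n k : ℕ) {K : Type} [Field K] [Algebra ℚ K] (y : Fin (n + 3) → K) :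
    value K (mat n) k y = (2 * y 0 ^ k - y 1 ^ k) ^ 2 + y 0 ^ k * y 2 ^ k + (y 2 ^ k) ^ 2 +
      ∑ i : Fin n, (y i.succ.succ.succ ^ k) ^ 2 := by
  have h : ∀ i, ∑ j, algebraMap ℚ K (mat n i j) * (y i ^ k * y j ^ k) =
      y i ^ k * ∑ j, algebraMap ℚ K (mat n i j) * y j ^ k := by
    intro i
    rw [Finset.mul_sum]
    exact Finset.sum_congr rfl fun j _ => by ring
  obtain ⟨g, hg⟩ : ∃ g : Fin (n + 3) → K, ∀ i, g i =
      ∑ j, algebraMap ℚ K (mat n i j) * (y i ^ k * y j ^ k) := ⟨_, fun i => rfl⟩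
  have hval : value K (mat n) k y = ∑ i, g i := Finset.sum_congr rfl fun i _ => (hg i).symm
  rw [hval, Fin.sum_univ_succ, Fin.sum_univ_succ, Fin.sum_univ_succ]
  have e1 : (Fin.succ 0 : Fin (n + 3)) = 1 := rfl
  have e2 : (Fin.succ (Fin.succ 0) : Fin (n + 3)) = 2 := rfl
  rw [e2, e1, hg 0, hg 1, hg 2, h, h, h, row0 n fun j => y j ^ k, row1 n fun j => y j ^ k,
    row2 n fun j => y j ^ k]
  have h3 : ∀ i : Fin n, g i.succ.succ.succ = (y i.succ.succ.succ ^ k) ^ 2 := by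
    intro i
    rw [hg, h, row3 n fun j => y j ^ k]
    ring
  rw [Finset.sum_congr rfl fun i _ => h3 i]
  have h2 : (2 : K)⁻¹ * 2 = 1 := by
    have : CharZero K := algebraRat.charZero K
    exact inv_mul_cancel₀ two_ne_zero
  linear_combination (y 0 ^ k * y 2 ^ k) * h2

theorem det_ne (n : ℕ) : (mat n).det ≠ 0 := by
  intro h
  obtain ⟨v, hv, h0⟩ := Matrix.exists_mulVec_eq_zero_iff.2 h
  apply hv
  have e : ∀ i, ∑ j, algebraMap ℚ ℚ (mat n i j) * v j = 0 := fun i => congrFun h0 i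
  have h1 := e 0
  have h2 := e 1
  have h3 := e 2
  rw [row0] at h1
  rw [row1] at h2
  rw [row2] at h3
  have a2 : v 2 = 0 := by linarith
  have a0 : v 0 = 0 := by linarith
  have a1 : v 1 = 0 := by linarith
  funext i
  refine Fin.cases a0 (fun i => ?_) i
  refine Fin.cases a1 (fun i => ?_) i
  refine Fin.cases a2 (fun i => ?_) i
  have := e i.succ.succ.succ
  rw [row3] at this
  exact this

/-! ### Real and rational zeros -/

theorem real_zero (n k : ℕ) (hk : 2 ≤ k) : HasZero ℝ (mat n) k := by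
  refine ⟨fun i => if i.1 = 0 then 1 else if i.1 = 1 then (2 : ℝ) ^ (1 / (k : ℝ)) else 0, ?_, ?_⟩
  · intro h
    have := congrFun h 0
    simp at this
  · rw [value_mat]
    have h1 : ((2 : ℝ) ^ (1 / (k : ℝ))) ^ k = 2 := by
      rw [one_div]
      exact Real.rpow_inv_natCast_pow (by norm_num) (by omega)
    have hk0 : k ≠ 0 := by omega
    simp [two_mod, hk0]
    rw [one_div] at h1
    rw [h1]
    ring

theorem two_not_pow (k : ℕ) (hk : 2 ≤ k) (r : ℚ) : r ^ k ≠ 2 := by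
  intro h
  have h2 : (padicValRat 2 (r ^ k)) = 1 := by
    rw [h]
    have : ((2 : ℕ) : ℚ) = 2 := by norm_num
    rw [← this, padicValRat.of_nat]
    simp
  have hr : r ≠ 0 := by
    rintro rfl
    rw [zero_pow (by omega)] at h
    norm_num at h
  have : Fact (Nat.Prime 2) := ⟨Nat.prime_two⟩
  rw [padicValRat.pow] at h2
  have h3 : (k : ℤ) ∣ 1 := ⟨_, h2.symm⟩
  have h4 := Int.le_of_dvd one_pos h3
  omega

theorem no_rat_zero (n k : ℕ) (hk : 2 ≤ k) (he : Even k) : ¬ HasZero ℚ (mat n) k := by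
  rintro ⟨y, hy, h⟩
  apply hy
  rw [value_mat] at h
  have hk0 : k ≠ 0 := by omega
  have hn : ∀ i, 0 ≤ y i ^ k := fun i => he.pow_nonneg _
  have hs : 0 ≤ ∑ i : Fin n, (y i.succ.succ.succ ^ k) ^ 2 :=
    Finset.sum_nonneg fun i _ => sq_nonneg _
  have h02 : 0 ≤ y 0 ^ k * y 2 ^ k := mul_nonneg (hn 0) (hn 2)
  have t1 : (2 * y 0 ^ k - y 1 ^ k) ^ 2 = 0 := by
    have := sq_nonneg (2 * y 0 ^ k - y 1 ^ k)
    have := sq_nonneg (y 2 ^ k)
    linarith
  have t2 : (y 2 ^ k) ^ 2 = 0 := by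
    have := sq_nonneg (2 * y 0 ^ k - y 1 ^ k)
    have := sq_nonneg (y 2 ^ k)
    linarith
  have t3 : ∑ i : Fin n, (y i.succ.succ.succ ^ k) ^ 2 = 0 := by
    have := sq_nonneg (2 * y 0 ^ k - y 1 ^ k)
    have := sq_nonneg (y 2 ^ k)
    linarith
  have y2 : y 2 = 0 := by
    rw [sq_eq_zero_iff, pow_eq_zero_iff hk0] at t2
    exact t2
  rw [sq_eq_zero_iff] at t1
  have y0 : y 0 = 0 := by
    by_contra h0
    apply two_not_pow k hk (y 1 / y 0)
    rw [div_pow, div_eq_iff (pow_ne_zero _ h0)]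
    linarith
  have y1 : y 1 = 0 := by
    rw [y0, zero_pow hk0] at t1
    have : y 1 ^ k = 0 := by linarith
    rwa [pow_eq_zero_iff hk0] at this
  have y3 : ∀ i : Fin n, y i.succ.succ.succ = 0 := by
    intro i
    rw [Finset.sum_eq_zero_iff_of_nonneg fun i _ => sq_nonneg _] at t3
    have := t3 i (mem_univ i)
    rwa [sq_eq_zero_iff, pow_eq_zero_iff hk0] at this
  funext i
  refine Fin.cases y0 (fun i => ?_) i
  refine Fin.cases y1 (fun i => ?_) i
  refine Fin.cases y2 (fun i => ?_) i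
  exact y3 i

/-! ### `p`-adic zeros -/

/-- A root of `T ^ d + c` near `a`. -/
theorem hensel_pow (p : ℕ) [Fact p.Prime] (d : ℕ) (a c : ℤ_[p])
    (h : ‖a ^ d + c‖ < ‖(d : ℤ_[p]) * a ^ (d - 1)‖ ^ 2) :
    ∃ z : ℤ_[p], z ^ d + c = 0 ∧ ‖z - a‖ < 1 := by
  have h1 : (Polynomial.aeval a) (Polynomial.X ^ d + Polynomial.C c : Polynomial ℤ_[p]) =
      a ^ d + c := by simp
  have h2 : (Polynomial.aeval a)
      (Polynomial.derivative (Polynomial.X ^ d + Polynomial.C c : Polynomial ℤ_[p])) =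
      (d : ℤ_[p]) * a ^ (d - 1) := by simp [Polynomial.derivative_X_pow]
  obtain ⟨z, hz1, hz2, -⟩ := hensels_lemma (F := (Polynomial.X ^ d + Polynomial.C c :
    Polynomial ℤ_[p])) (a := a) (by rw [h1, h2]; exact h)
  refine ⟨z, ?_, ?_⟩
  · simpa using hz1
  · rw [h2] at hz2
    exact lt_of_lt_of_le hz2 (PadicInt.norm_le_one _)

/-- `p` prime to `2 k` -/
theorem padic_zero_tame (p : ℕ) [hp : Fact p.Prime] (k n : ℕ) (hk : 1 ≤ k) (hn : 2 * k < n)
    (hpk : ¬ p ∣ 2 * k) :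
    ∃ y : Fin n → ℤ_[p], y ≠ 0 ∧ ∑ i, y i ^ (2 * k) = 0 := by
  let f : MvPolynomial (Fin n) (ZMod p) := ∑ i, MvPolynomial.X i ^ (2 * k)
  have hdeg : f.totalDegree < Fintype.card (Fin n) := by
    rw [Fintype.card_fin]
    refine lt_of_le_of_lt ?_ hn
    refine (MvPolynomial.totalDegree_finsetSum _ _).trans ?_
    refine Finset.sup_le fun i _ => ?_
    exact (MvPolynomial.totalDegree_X_pow i (2 * k)).le
  have hcard := char_dvd_card_solutions p hdeg
  have heval : ∀ x : Fin n → ZMod p, MvPolynomial.eval x f = ∑ i, x i ^ (2 * k) := by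
    intro x
    simp [f]
  have h0 : MvPolynomial.eval (0 : Fin n → ZMod p) f = 0 := by
    rw [heval]
    refine Finset.sum_eq_zero fun i _ => ?_
    simp
    omega
  have hone : 1 < Fintype.card {x : Fin n → ZMod p // MvPolynomial.eval x f = 0} := by
    have hpos : 0 < Fintype.card {x : Fin n → ZMod p // MvPolynomial.eval x f = 0} :=
      Fintype.card_pos_iff.2 ⟨⟨0, h0⟩⟩
    exact lt_of_lt_of_le hp.out.one_lt (Nat.le_of_dvd hpos hcard)
  obtain ⟨⟨x, hx⟩, hx0⟩ := Fintype.exists_ne_of_one_lt_card hone ⟨0, h0⟩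
  have hxne : x ≠ 0 := fun h => hx0 (Subtype.ext h)
  obtain ⟨i, hi⟩ : ∃ i, x i ≠ 0 := by
    by_contra hcon
    push Not at hcon
    exact hxne (funext hcon)
  rw [heval] at hx
  -- lift
  set c : ℤ := ∑ j ∈ univ.erase i, ((x j).val : ℤ) ^ (2 * k) with hc
  have hsum : ((((x i).val : ℤ) ^ (2 * k) + c : ℤ) : ZMod p) = 0 := by
    rw [hc]
    push_cast
    rw [Finset.add_sum_erase univ (fun j => ((((x j).val : ℕ) : ZMod p)) ^ (2 * k)) (mem_univ i)]
    rw [← hx]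
    refine Finset.sum_congr rfl fun j _ => ?_
    rw [ZMod.natCast_zmod_val]
  have hdvd : (p : ℤ) ∣ ((x i).val : ℤ) ^ (2 * k) + c :=
    (ZMod.intCast_zmod_eq_zero_iff_dvd _ _).1 hsum
  have hval : ¬ (p : ℤ) ∣ ((x i).val : ℤ) := by
    intro h
    have h1 := (ZMod.intCast_zmod_eq_zero_iff_dvd _ _).2 h
    push_cast at h1
    rw [ZMod.natCast_zmod_val] at h1
    exact hi h1
  have hprime : Prime (p : ℤ) := Nat.prime_iff_prime_int.1 hp.out
  have hder : ‖((2 * k : ℕ) : ℤ_[p]) * (((x i).val : ℤ) : ℤ_[p]) ^ (2 * k - 1)‖ = 1 := by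
    have h1 : ((2 * k : ℕ) : ℤ_[p]) * (((x i).val : ℤ) : ℤ_[p]) ^ (2 * k - 1) =
        ((((2 * k : ℕ) : ℤ) * ((x i).val : ℤ) ^ (2 * k - 1) : ℤ) : ℤ_[p]) := by
      push_cast
      ring
    rw [h1]
    refine le_antisymm (PadicInt.norm_le_one _) ?_
    by_contra hcon
    push Not at hcon
    rw [PadicInt.norm_int_lt_one_iff_dvd] at hcon
    rcases hprime.dvd_or_dvd hcon with h2 | h2
    · exact hpk (by exact_mod_cast h2)
    · exact hval (hprime.dvd_of_dvd_pow h2)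
  obtain ⟨z, hz, hza⟩ := hensel_pow p (2 * k) (((x i).val : ℤ) : ℤ_[p]) ((c : ℤ) : ℤ_[p]) (by
    rw [hder, one_pow]
    have h1 : (((x i).val : ℤ) : ℤ_[p]) ^ (2 * k) + ((c : ℤ) : ℤ_[p]) =
        ((((x i).val : ℤ) ^ (2 * k) + c : ℤ) : ℤ_[p]) := by push_cast; ring
    rw [h1, PadicInt.norm_int_lt_one_iff_dvd]
    exact hdvd)
  refine ⟨fun j => if j = i then z else (((x j).val : ℤ) : ℤ_[p]), ?_, ?_⟩
  · intro h
    have h1 : z = 0 := by simpa using congrFun h i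
    rw [h1, zero_sub, norm_neg, PadicInt.norm_int_lt_one_iff_dvd] at hza
    exact hval hza
  · rw [← Finset.add_sum_erase univ _ (mem_univ i)]
    beta_reduce
    rw [if_pos rfl, ← hz, hc]
    push_cast
    congr 1
    refine Finset.sum_congr rfl fun j hj => ?_
    rw [if_neg (Finset.ne_of_mem_erase hj)]

/-- `p` dividing `2 k` -/
theorem padic_zero_wild (p : ℕ) [hp : Fact p.Prime] (k n : ℕ) (hk : 1 ≤ k) (hn : 8 * k ^ 3 ≤ n)
    (hpk : p ∣ 2 * k) :
    ∃ y : Fin n → ℤ_[p], y ≠ 0 ∧ ∑ i, y i ^ (2 * k) = 0 := by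
  set v := padicValNat p (2 * k) with hv
  set N := p ^ (2 * v + 1) - 1 with hN
  have hpv : p ^ v ∣ 2 * k := pow_padicValNat_dvd
  have h1 : p ^ v ≤ 2 * k := Nat.le_of_dvd (by omega) hpv
  have h2 : p ≤ 2 * k := Nat.le_of_dvd (by omega) hpk
  have h3 : p ^ (2 * v + 1) ≤ n := by
    calc p ^ (2 * v + 1) = p ^ v * p ^ v * p := by ring
      _ ≤ (2 * k) * (2 * k) * (2 * k) := by gcongr
      _ = 8 * k ^ 3 := by ring
      _ ≤ n := hn
  have hpos : 0 < p ^ (2 * v + 1) := pow_pos hp.out.pos _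
  have hNn : N < n := by omega
  obtain ⟨z, hz, hza⟩ := hensel_pow p (2 * k) 1 (((N : ℕ)) : ℤ_[p]) (by
    have e1 : (1 : ℤ_[p]) ^ (2 * k) + ((N : ℕ) : ℤ_[p]) = (p : ℤ_[p]) ^ (2 * v + 1) := by
      rw [one_pow, hN]
      push_cast [Nat.cast_sub (show 1 ≤ p ^ (2 * v + 1) from hpos)]
      ring
    rw [e1, one_pow, mul_one, PadicInt.norm_p_pow]
    have e2 : ‖((2 * k : ℕ) : ℤ_[p])‖ = (p : ℝ) ^ (-(v : ℤ)) := by
      have h4 : ((2 * k : ℕ) : ℚ) ≠ 0 := by
        have : 0 < 2 * k := by omega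
        exact_mod_cast this.ne'
      rw [PadicInt.norm_def]
      have h5 : (((2 * k : ℕ) : ℤ_[p]) : ℚ_[p]) = (((2 * k : ℕ) : ℚ) : ℚ_[p]) := by push_cast; rfl
      rw [h5, Padic.eq_padicNorm, padicNorm.eq_zpow_of_nonzero h4]
      rw [padicValRat.of_nat, ← hv]
      push_cast
      rfl
    rw [e2]
    have h6 : (1 : ℝ) < p := by exact_mod_cast hp.out.one_lt
    have h7 : ((p : ℝ) ^ (-(v : ℤ))) ^ 2 = (p : ℝ) ^ (-(2 * v : ℤ)) := by
      rw [← zpow_natCast, ← zpow_mul]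
      congr 1
      push_cast
      ring
    rw [h7]
    apply zpow_lt_zpow_right₀ h6
    push_cast
    omega)
  have hn0 : 0 < n := by omega
  refine ⟨fun j => if j.1 = 0 then z else if j.1 ≤ N then 1 else 0, ?_, ?_⟩
  · intro h
    have h8 : z = 0 := by simpa using congrFun h ⟨0, hn0⟩
    rw [h8, zero_sub, norm_neg, norm_one] at hza
    exact lt_irrefl _ hza
  · obtain ⟨m, rfl⟩ : ∃ m, n = m + 1 := ⟨n - 1, by omega⟩
    rw [Fin.sum_univ_succ]
    have e3 : ∀ i : Fin m, (if (i.succ : ℕ) = 0 then z else if (i.succ : ℕ) ≤ N then (1 : ℤ_[p])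
        else 0) ^ (2 * k) = if (i : ℕ) < N then 1 else 0 := by
      intro i
      rw [if_neg (by simp), Fin.val_succ]
      by_cases hi : (i : ℕ) < N
      · rw [if_pos (by omega), if_pos hi, one_pow]
      · rw [if_neg (by omega), if_neg hi, zero_pow (by omega)]
    rw [Finset.sum_congr rfl fun i _ => e3 i]
    have e4 : ∑ i : Fin m, (if (i : ℕ) < N then (1 : ℤ_[p]) else 0) = (N : ℕ) := by
      rw [Fin.sum_univ_eq_sum_range (fun i => if i < N then (1 : ℤ_[p]) else 0) m]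
      rw [Finset.sum_ite, Finset.sum_const_zero, add_zero, Finset.sum_const, nsmul_eq_mul, mul_one]
      congr 1
      have : (Finset.range m).filter (fun i => i < N) = Finset.range N := by
        ext i
        simp only [Finset.mem_filter, Finset.mem_range]
        omega
      rw [this, Finset.card_range]
    rw [e4]
    simpa using hz

theorem padic_zero (p : ℕ) [hp : Fact p.Prime] (k n : ℕ) (hk : 1 ≤ k) (hn : 8 * k ^ 3 ≤ n + 1) :
    HasZero ℚ_[p] (mat n) k := by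
  obtain ⟨w, hw0, hw⟩ : ∃ y : Fin (n + 1) → ℤ_[p], y ≠ 0 ∧ ∑ i, y i ^ (2 * k) = 0 := by
    by_cases h : p ∣ 2 * k
    · exact padic_zero_wild p k (n + 1) hk hn h
    · refine padic_zero_tame p k (n + 1) hk ?_ h
      have : k ≤ k ^ 3 := Nat.le_self_pow (by norm_num) k
      omega
  refine ⟨fun i => Fin.cases 0 (fun i => Fin.cases 0 (fun i => (w i : ℚ_[p])) i) i, ?_, ?_⟩
  · intro h
    apply hw0
    funext i
    have := congrFun h i.succ.succ
    simpa using this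
  · rw [value_mat]
    have hk0 : k ≠ 0 := by omega
    have e1 : (1 : Fin (n + 3)) = Fin.succ 0 := rfl
    have e2 : (2 : Fin (n + 3)) = Fin.succ (Fin.succ 0) := rfl
    rw [e1, e2]
    simp only [Fin.cases_zero, Fin.cases_succ]
    rw [zero_pow hk0]
    have e3 : ((w 0 : ℚ_[p]) ^ k) ^ 2 + ∑ i : Fin n, ((w i.succ : ℚ_[p]) ^ k) ^ 2 =
        ((∑ i, w i ^ (2 * k) : ℤ_[p]) : ℚ_[p]) := by
      rw [Fin.sum_univ_succ]
      have e5 : ∀ a : ℤ_[p], (a : ℚ_[p]) = PadicInt.Coe.ringHom a := fun a => rfl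
      simp only [e5, map_add, map_sum, map_pow]
      congr 1
      · ring
      · exact Finset.sum_congr rfl fun i _ => by ring
    have e4 : ((2 : ℚ_[p]) * 0 - 0) ^ 2 + 0 * (w 0 : ℚ_[p]) ^ k + ((w 0 : ℚ_[p]) ^ k) ^ 2 +
        ∑ i : Fin n, ((w i.succ : ℚ_[p]) ^ k) ^ 2 = ((w 0 : ℚ_[p]) ^ k) ^ 2 +
        ∑ i : Fin n, ((w i.succ : ℚ_[p]) ^ k) ^ 2 := by ring
    rw [e4, e3, hw]
    simp

/-- **The Hasse principle for quadratic forms in `k`-th powers fails for all even `k`.**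
(1) Let `k ≥ 2` be even. For every `s ≥ 8 k ^ 3 + 3` there is a nonsingular rational quadratic form
`Q` in `s` variables such that `Q(y₁ ^ k, …, y_s ^ k)` has nontrivial zeros over `ℝ` and over `ℚ_p`
for every prime `p`, but no nontrivial zero over `ℚ`. (2) So there is no threshold `s₀`; `h(k)` is
not finite. (3) In particular there is no function `h : ℕ → ℕ` such that `h k` is the least threshold
for all `k ≥ 1` and `log (h k) = o(k)`. -/
theorem result :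
    (∀ k : ℕ, 2 ≤ k → Even k → ∀ s : ℕ, 8 * k ^ 3 + 3 ≤ s →
      ∃ A : Matrix (Fin s) (Fin s) ℚ, A.IsSymm ∧ A.det ≠ 0 ∧ HasZero ℝ A k ∧
        (∀ (p : ℕ) [Fact p.Prime], HasZero ℚ_[p] A k) ∧ ¬ HasZero ℚ A k) ∧
    (∀ k : ℕ, 2 ≤ k → Even k → ∀ s₀ : ℕ, ¬ IsThreshold k s₀) ∧
    ¬ ∃ h : ℕ → ℕ, (∀ k : ℕ, 1 ≤ k → IsLeast {s₀ : ℕ | IsThreshold k s₀} (h k)) ∧
      (fun k => Real.log (h k)) =o[atTop] (fun k : ℕ => (k : ℝ)) := by
  have h1 : ∀ k : ℕ, 2 ≤ k → Even k → ∀ s : ℕ, 8 * k ^ 3 + 3 ≤ s →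
      ∃ A : Matrix (Fin s) (Fin s) ℚ, A.IsSymm ∧ A.det ≠ 0 ∧ HasZero ℝ A k ∧
        (∀ (p : ℕ) [Fact p.Prime], HasZero ℚ_[p] A k) ∧ ¬ HasZero ℚ A k := by
    intro k hk he s hs
    obtain ⟨n, rfl⟩ : ∃ n, s = n + 3 := ⟨s - 3, by omega⟩
    exact ⟨mat n, mat_symm n, det_ne n, real_zero n k hk,
      fun p _ => padic_zero p k n (by omega) (by omega), no_rat_zero n k hk he⟩
  have h2 : ∀ k : ℕ, 2 ≤ k → Even k → ∀ s₀ : ℕ, ¬ IsThreshold k s₀ := by
    intro k hk he s₀ h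
    obtain ⟨A, a1, a2, a3, a4, a5⟩ := h1 k hk he (max s₀ (8 * k ^ 3 + 3)) (le_max_right _ _)
    exact a5 (h _ (le_max_left _ _) A a1 a2 a3 a4)
  refine ⟨h1, h2, ?_⟩
  rintro ⟨h, hh, -⟩
  exact h2 2 le_rfl even_two _ (hh 2 (by norm_num)).1

end Pool.Agent.Results.MP_c0a553_nt.EvenExponents
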